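import Mathlib

set_option autoImplicit false

/-!
Positivity of piecewise quadratic functions `u(x) = ∑ xᵢ μᵢ(x)`, where the `μᵢ` are maxima of
finitely many integral linear forms and `u ≥ 1` at the lattice points where `μ ≠ 0`.
-/

namespace Pool.Agent.Helper389_End

open Filter Topology

variable {κ : Type} [Fintype κ]

/-- pairing of a real vector with an integral one -/
def ip (x : κ → ℝ) (d : κ → ℤ) : ℝ := ∑ i, x i * (d i : ℝ)

theorem ip_add (x y : κ → ℝ) (d : κ → ℤ) : ip (x + y) d = ip x d + ip y d := by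
  unfold ip
  rw [← Finset.sum_add_distrib]
  exact Finset.sum_congr rfl fun i _ => by simp only [Pi.add_apply]; ring

theorem ip_sub (x y : κ → ℝ) (d : κ → ℤ) : ip (x - y) d = ip x d - ip y d := by
  unfold ip
  rw [← Finset.sum_sub_distrib]
  exact Finset.sum_congr rfl fun i _ => by simp only [Pi.sub_apply]; ring

theorem ip_smul (c : ℝ) (x : κ → ℝ) (d : κ → ℤ) : ip (c • x) d = c * ip x d := by
  unfold ip
  rw [Finset.mul_sum]
  exact Finset.sum_congr rfl fun i _ => by simp only [Pi.smul_apply, smul_eq_mul]; ring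

theorem ip_zero (x : κ → ℝ) : ip x 0 = 0 := by
  unfold ip
  simp

theorem ip_int (z d : κ → ℤ) : ip (fun i => (z i : ℝ)) d = ((∑ i, z i * d i : ℤ) : ℝ) := by
  unfold ip
  push_cast
  rfl

theorem continuous_ip (d : κ → ℤ) : Continuous fun x => ip x d := by
  unfold ip
  fun_prop

theorem abs_ip_le (η : κ → ℝ) (d : κ → ℤ) (ε : ℝ) (h : ∀ i, |η i| ≤ ε) :
    |ip η d| ≤ ε * ∑ i, |(d i : ℝ)| := by
  unfold ip
  refine (Finset.abs_sum_le_sum_abs _ _).trans ?_
  rw [Finset.mul_sum]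
  refine Finset.sum_le_sum fun i _ => ?_
  rw [abs_mul]
  exact mul_le_mul_of_nonneg_right (h i) (abs_nonneg _)

/-- simultaneous approximation -/
theorem dirichlet (π : κ → ℝ) (ε : ℝ) (hε : 0 < ε) :
    ∃ (N : ℕ) (z : κ → ℤ), 1 ≤ N ∧ ∀ i, |(z i : ℝ) - N * π i| < ε := by
  let f : ℕ → κ → ℝ := fun n i => Int.fract (n * π i)
  have hf : ∀ n, f n ∈ Set.Icc (0 : κ → ℝ) 1 := fun n =>
    ⟨fun i => Int.fract_nonneg _, fun i => (Int.fract_lt_one _).le⟩
  obtain ⟨a, -, φ, hφ, hlim⟩ := isCompact_Icc.tendsto_subseq hf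
  obtain ⟨N, hN⟩ := Metric.cauchySeq_iff'.mp hlim.cauchySeq ε hε
  have h1 := hN (N + 1) (Nat.le_succ N)
  have h2 : φ N < φ (N + 1) := hφ (Nat.lt_succ_self N)
  refine ⟨φ (N + 1) - φ N, fun i => ⌊(φ (N + 1) : ℝ) * π i⌋ - ⌊(φ N : ℝ) * π i⌋, by omega,
    fun i => ?_⟩
  have h3 : dist (f (φ (N + 1)) i) (f (φ N) i) < ε := (dist_le_pi_dist _ _ i).trans_lt h1
  rw [Real.dist_eq, abs_sub_comm] at h3
  have h4 : (((⌊(φ (N + 1) : ℝ) * π i⌋ - ⌊(φ N : ℝ) * π i⌋ : ℤ)) : ℝ) -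
      ((φ (N + 1) - φ N : ℕ) : ℝ) * π i = f (φ N) i - f (φ (N + 1)) i := by
    rw [Nat.cast_sub h2.le]
    change _ = Int.fract ((φ N : ℝ) * π i) - Int.fract ((φ (N + 1) : ℝ) * π i)
    unfold Int.fract
    push_cast
    ring
  rw [h4]
  exact h3

/-- finite sets of integral functionals -/
structure PL (κ : Type) [Fintype κ] where
  D : κ → Finset (κ → ℤ)
  zero_mem : ∀ i, (0 : κ → ℤ) ∈ D i

/-- the maximum of the functionals -/
noncomputable def PL.mu (L : PL κ) (i : κ) (x : κ → ℝ) : ℝ :=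
  (L.D i).sup' ⟨0, L.zero_mem i⟩ fun d => ip x d

/-- the piecewise quadratic function -/
noncomputable def PL.u (L : PL κ) (x : κ → ℝ) : ℝ := ∑ i, x i * L.mu i x

theorem PL.le_mu (L : PL κ) (i : κ) (x : κ → ℝ) (d : κ → ℤ) (hd : d ∈ L.D i) :
    ip x d ≤ L.mu i x := Finset.le_sup' (fun d => ip x d) hd

theorem PL.mu_nonneg (L : PL κ) (i : κ) (x : κ → ℝ) : 0 ≤ L.mu i x := by
  have := L.le_mu i x 0 (L.zero_mem i)
  rwa [ip_zero] at this

theorem PL.mu_le (L : PL κ) (i : κ) (x : κ → ℝ) (c : ℝ) (h : ∀ d ∈ L.D i, ip x d ≤ c) :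
    L.mu i x ≤ c := Finset.sup'_le _ _ h

theorem PL.exists_mu (L : PL κ) (i : κ) (x : κ → ℝ) : ∃ d ∈ L.D i, L.mu i x = ip x d := by
  obtain ⟨d, hd, h⟩ := Finset.exists_mem_eq_sup' ⟨0, L.zero_mem i⟩ (fun d => ip x d)
  exact ⟨d, hd, h⟩

theorem PL.mu_eq (L : PL κ) (i : κ) (x : κ → ℝ) (d : κ → ℤ) (hd : d ∈ L.D i)
    (h : ∀ d' ∈ L.D i, ip x d' ≤ ip x d) : L.mu i x = ip x d :=
  le_antisymm (L.mu_le i x _ h) (L.le_mu i x d hd)

theorem PL.continuous_mu (L : PL κ) (i : κ) : Continuous (L.mu i) := by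
  unfold PL.mu
  exact Continuous.finset_sup'_apply _ fun d _ => continuous_ip d

theorem PL.continuous_u (L : PL κ) : Continuous L.u := by
  unfold PL.u
  exact continuous_finsetSum _ fun i _ => (continuous_apply i).mul (L.continuous_mu i)

theorem PL.mu_smul (L : PL κ) (i : κ) (x : κ → ℝ) (c : ℝ) (hc : 0 < c) :
    L.mu i (c • x) = c * L.mu i x := by
  obtain ⟨d, hd, h⟩ := L.exists_mu i x
  rw [h, ← ip_smul]
  refine L.mu_eq i _ d hd fun d' hd' => ?_
  rw [ip_smul, ip_smul, ← h]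
  exact mul_le_mul_of_nonneg_left (L.le_mu i x d' hd') hc.le

theorem PL.u_smul (L : PL κ) (x : κ → ℝ) (c : ℝ) (hc : 0 < c) :
    L.u (c • x) = c ^ 2 * L.u x := by
  unfold PL.u
  rw [Finset.mul_sum]
  refine Finset.sum_congr rfl fun i _ => ?_
  rw [L.mu_smul i x c hc]
  simp only [Pi.smul_apply, smul_eq_mul]
  ring

/-- a bound for the functionals -/
theorem PL.exists_bound (L : PL κ) :
    ∃ K : ℝ, 1 ≤ K ∧ ∀ i, ∀ d ∈ L.D i, ∑ j, |(d j : ℝ)| ≤ K := by
  classical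
  refine ⟨1 + ∑ i, ∑ d ∈ L.D i, ∑ j, |(d j : ℝ)|, ?_, fun i d hd => ?_⟩
  · have : 0 ≤ ∑ i, ∑ d ∈ L.D i, ∑ j, |(d j : ℝ)| :=
      Finset.sum_nonneg fun i _ => Finset.sum_nonneg fun d _ => Finset.sum_nonneg fun j _ =>
        abs_nonneg _
    linarith
  · have h1 : ∑ j, |(d j : ℝ)| ≤ ∑ d ∈ L.D i, ∑ j, |(d j : ℝ)| :=
      Finset.single_le_sum (f := fun d : κ → ℤ => ∑ j, |(d j : ℝ)|)
        (fun d _ => Finset.sum_nonneg fun j _ => abs_nonneg _) hd
    have h2 : ∑ d ∈ L.D i, ∑ j, |(d j : ℝ)| ≤ ∑ i, ∑ d ∈ L.D i, ∑ j, |(d j : ℝ)| :=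
      Finset.single_le_sum (f := fun i => ∑ d ∈ L.D i, ∑ j, |(d j : ℝ)|)
        (fun d _ => Finset.sum_nonneg fun j _ => Finset.sum_nonneg fun j _ => abs_nonneg _)
        (Finset.mem_univ i)
    linarith

/-- choice of a small `ε` -/
theorem PL.exists_eps (L : PL κ) (π : κ → ℝ) (K : ℝ) (a : ℝ) (ha : 0 < a) :
    ∃ ε : ℝ, 0 < ε ∧ 2 * (K * ε) < 1 ∧ Fintype.card κ * (ε * (K * ε)) < 1 ∧ K * ε < a ∧
      ∀ i, ∀ d ∈ L.D i, ip π d < L.mu i π → ip π d + 2 * (K * ε) < L.mu i π := by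
  have key : ∀ (f : ℝ → ℝ) (c : ℝ), Continuous f → f 0 < c →
      ∀ᶠ ε in 𝓝[>] (0 : ℝ), f ε < c := fun f c hf h =>
    ((hf.tendsto 0).mono_left nhdsWithin_le_nhds).eventually_lt_const h
  have h1 := key (fun ε => 2 * (K * ε)) 1 (by fun_prop) (by norm_num)
  have h2 := key (fun ε => Fintype.card κ * (ε * (K * ε))) 1 (by fun_prop) (by norm_num)
  have h3 := key (fun ε => K * ε) a (by fun_prop) (by simpa using ha)
  have h4 : ∀ᶠ ε in 𝓝[>] (0 : ℝ), ∀ i, ∀ d ∈ L.D i, ip π d < L.mu i π →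
      ip π d + 2 * (K * ε) < L.mu i π := by
    rw [Filter.eventually_all]
    intro i
    rw [Filter.eventually_all_finset]
    intro d _
    by_cases h : ip π d < L.mu i π
    · have := key (fun ε => ip π d + 2 * (K * ε)) (L.mu i π) (by fun_prop) (by simpa using h)
      filter_upwards [this] with ε hε _
      exact hε
    · exact Filter.Eventually.of_forall fun ε h' => absurd h' h
  have h5 : ∀ᶠ ε in 𝓝[>] (0 : ℝ), 0 < ε := self_mem_nhdsWithin
  obtain ⟨ε, e1, e2, e3, e4, e5⟩ := (h1.and (h2.and (h3.and (h4.and h5)))).exists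
  exact ⟨ε, e5, e1, e2, e3, e4⟩

/-- ties at `π` persist at good approximations -/
theorem PL.mu_approx (L : PL κ) (π : κ → ℝ) (K ε : ℝ) (hK : ∀ i, ∀ d ∈ L.D i, ∑ j, |(d j : ℝ)| ≤ K)
    (hε : 0 < ε) (h1 : 2 * (K * ε) < 1)
    (h2 : ∀ i, ∀ d ∈ L.D i, ip π d < L.mu i π → ip π d + 2 * (K * ε) < L.mu i π)
    (N : ℕ) (hN : 1 ≤ N) (z : κ → ℤ) (hz : ∀ i, |(z i : ℝ) - N * π i| ≤ ε)
    (i : κ) (e : κ → ℤ) (he : e ∈ L.D i) (heq : L.mu i π = ip π e) :
    L.mu i (fun j => (z j : ℝ)) = N * L.mu i π + ip (fun j => (z j : ℝ) - N * π j) e := by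
  have hN' : (1 : ℝ) ≤ N := by exact_mod_cast hN
  have hdec : ∀ d : κ → ℤ, ip (fun j => (z j : ℝ)) d =
      N * ip π d + ip (fun j => (z j : ℝ) - N * π j) d := by
    intro d
    rw [← ip_smul, ← ip_add]
    congr 1
    ext j
    simp
  have hb : ∀ d ∈ L.D i, |ip (fun j => (z j : ℝ) - N * π j) d| ≤ K * ε := by
    intro d hd
    refine (abs_ip_le _ d ε hz).trans ?_
    rw [mul_comm]
    exact mul_le_mul_of_nonneg_right (hK i d hd) hε.le
  rw [heq, ← hdec]
  refine L.mu_eq i _ e he fun d hd => ?_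
  have b1 := abs_le.mp (hb d hd)
  have b2 := abs_le.mp (hb e he)
  rcases (L.le_mu i π d hd).lt_or_eq with h | h
  · have h3 := h2 i d hd h
    rw [hdec, hdec, ← heq]
    nlinarith [h3, b1.1, b1.2, b2.1, b2.2, hN']
  · have h4 : ip (fun j => (z j : ℝ)) d - ip (fun j => (z j : ℝ)) e =
        ip (fun j => (z j : ℝ) - N * π j) d - ip (fun j => (z j : ℝ) - N * π j) e := by
      rw [hdec, hdec, h, heq]
      ring
    rw [ip_int, ip_int] at h4 ⊢
    have h5 : |((∑ i, z i * d i : ℤ) : ℝ) - ((∑ i, z i * e i : ℤ) : ℝ)| < 1 := by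
      rw [h4, abs_lt]
      constructor <;> linarith [b1.1, b1.2, b2.1, b2.2]
    rw [← Int.cast_sub, ← Int.cast_abs] at h5
    have h6 : |∑ i, z i * d i - ∑ i, z i * e i| < 1 := by exact_mod_cast h5
    have h7 := Int.abs_lt_one_iff.mp h6
    have h8 : ∑ i, z i * d i = ∑ i, z i * e i := by linarith
    rw [h8]

/-- positivity, from the lattice points close to the multiples of `π` -/
theorem PL.pos (L : PL κ) (π : κ → ℝ) (ε₁ : ℝ) (hε₁ : 0 < ε₁)
    (hP : ∀ (N : ℕ) (x : κ → ℤ), 1 ≤ N → (∀ i, |(x i : ℝ) - N * π i| < ε₁) →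
      (∃ i, 0 < L.mu i fun j => (x j : ℝ)) → 1 ≤ L.u fun j => (x j : ℝ))
    (hπ : ∃ i, 0 < L.mu i π) : 0 < L.u π := by
  classical
  by_contra hcon
  push Not at hcon
  obtain ⟨i₀, hi₀⟩ := hπ
  obtain ⟨K, hK1, hK⟩ := L.exists_bound
  obtain ⟨ε₂, hε₂, h1', h2', h3', h4'⟩ := L.exists_eps π K (L.mu i₀ π) hi₀
  obtain ⟨ε, hε, hεε, h1, h2, h3, h4⟩ : ∃ ε : ℝ, 0 < ε ∧ ε < ε₁ ∧ 2 * (K * ε) < 1 ∧
      Fintype.card κ * (ε * (K * ε)) < 1 ∧ K * ε < L.mu i₀ π ∧
      ∀ i, ∀ d ∈ L.D i, ip π d < L.mu i π → ip π d + 2 * (K * ε) < L.mu i π := by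
    have e1 : min ε₂ (ε₁ / 2) ≤ ε₂ := min_le_left _ _
    have e2 : min ε₂ (ε₁ / 2) ≤ ε₁ / 2 := min_le_right _ _
    have e0 : 0 < min ε₂ (ε₁ / 2) := lt_min hε₂ (by positivity)
    have e3 : K * min ε₂ (ε₁ / 2) ≤ K * ε₂ := mul_le_mul_of_nonneg_left e1 (by linarith)
    refine ⟨min ε₂ (ε₁ / 2), e0, by linarith, by linarith, ?_, by linarith,
      fun i d hd h => ?_⟩
    · refine lt_of_le_of_lt ?_ h2'
      refine mul_le_mul_of_nonneg_left ?_ (Nat.cast_nonneg _)
      exact mul_le_mul e1 e3 (by positivity) hε₂.le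
    · have := h4' i d hd h
      linarith
  choose e he heq using fun i => L.exists_mu i π
  let β : (κ → ℝ) → ℝ := fun η => ∑ i, (η i * L.mu i π + π i * ip η (e i))
  let Q : (κ → ℝ) → ℝ := fun η => ∑ i, η i * ip η (e i)
  have hβsub : ∀ η η', β (η - η') = β η - β η' := by
    intro η η'
    change ∑ i, _ = ∑ i, _ - ∑ i, _
    rw [← Finset.sum_sub_distrib]
    refine Finset.sum_congr rfl fun i _ => ?_
    rw [ip_sub]
    simp only [Pi.sub_apply]
    ring
  have hip : ∀ (η : κ → ℝ) (δ : ℝ), 0 ≤ δ → (∀ i, |η i| ≤ δ) → ∀ i, |ip η (e i)| ≤ K * δ := by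
    intro η δ hδ hη i
    refine (abs_ip_le _ _ δ hη).trans ?_
    rw [mul_comm]
    exact mul_le_mul_of_nonneg_right (hK i _ (he i)) hδ
  -- good approximations
  have good : ∀ (N : ℕ) (z : κ → ℤ), 1 ≤ N → (∀ i, |(z i : ℝ) - N * π i| ≤ ε) →
      0 < β (fun j => (z j : ℝ) - N * π j) := by
    intro N z hN hz
    have hN' : (1 : ℝ) ≤ N := by exact_mod_cast hN
    have m1 : ∀ i, L.mu i (fun j => (z j : ℝ)) =
        N * L.mu i π + ip (fun j => (z j : ℝ) - N * π j) (e i) := fun i =>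
      L.mu_approx π K ε hK hε h1 h4 N hN z hz i (e i) (he i) (heq i)
    have m2 := hip _ ε hε.le hz
    have m3 : 0 < L.mu i₀ (fun j => (z j : ℝ)) := by
      rw [m1]
      have := (abs_le.mp (m2 i₀)).1
      nlinarith
    have m4 := hP N z hN (fun i => (hz i).trans_lt hεε) ⟨i₀, m3⟩
    have m5 : L.u (fun j => (z j : ℝ)) = N ^ 2 * L.u π + N * β (fun j => (z j : ℝ) - N * π j) +
        Q (fun j => (z j : ℝ) - N * π j) := by
      change ∑ i, _ = _ * ∑ i, _ + _ * ∑ i, _ + ∑ i, _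
      rw [Finset.mul_sum, Finset.mul_sum, ← Finset.sum_add_distrib, ← Finset.sum_add_distrib]
      refine Finset.sum_congr rfl fun i _ => ?_
      rw [m1]
      ring
    have m6 : Q (fun j => (z j : ℝ) - N * π j) < 1 := by
      refine lt_of_le_of_lt ?_ h2
      change ∑ i, _ ≤ _
      have : ∀ i ∈ Finset.univ, ((z i : ℝ) - N * π i) *
          ip (fun j => (z j : ℝ) - N * π j) (e i) ≤ ε * (K * ε) := by
        intro i _
        refine (le_abs_self _).trans ?_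
        rw [abs_mul]
        exact mul_le_mul (hz i) (m2 i) (abs_nonneg _) hε.le
      refine (Finset.sum_le_sum this).trans ?_
      rw [Finset.sum_const, nsmul_eq_mul]
      rfl
    have m7 : (N : ℝ) ^ 2 * L.u π ≤ 0 := mul_nonpos_of_nonneg_of_nonpos (by positivity) hcon
    have m8 : 0 < (N : ℝ) * β (fun j => (z j : ℝ) - N * π j) := by linarith
    exact (mul_pos_iff_of_pos_left (by linarith : (0 : ℝ) < N)).mp m8
  -- two approximations
  obtain ⟨N, z, hN, hz⟩ := dirichlet π (ε / 2) (by positivity)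
  have hz' : ∀ i, |(z i : ℝ) - N * π i| ≤ ε := fun i => by have := hz i; linarith
  have hβ := good N z hN hz'
  set b := β (fun j => (z j : ℝ) - N * π j) with hb
  obtain ⟨C, hC1, hC⟩ : ∃ C : ℝ, 0 < C ∧ ∀ (η : κ → ℝ) (δ : ℝ), 0 ≤ δ → (∀ i, |η i| ≤ δ) →
      β η ≤ C * δ := by
    refine ⟨1 + ∑ i, (L.mu i π + |π i| * K), ?_, ?_⟩
    · have : 0 ≤ ∑ i, (L.mu i π + |π i| * K) := Finset.sum_nonneg fun i _ => by
        have := L.mu_nonneg i π
        positivity
      linarith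
    · intro η δ hδ hη
      have : β η ≤ (∑ i, (L.mu i π + |π i| * K)) * δ := by
        change ∑ i, _ ≤ _
        rw [Finset.sum_mul]
        refine Finset.sum_le_sum fun i _ => ?_
        have a1 := (abs_le.mp (hη i)).2
        have a2 := L.mu_nonneg i π
        have a3 : π i * ip η (e i) ≤ |π i| * (K * δ) := by
          refine (le_abs_self _).trans ?_
          rw [abs_mul]
          exact mul_le_mul_of_nonneg_left (hip η δ hδ hη i) (abs_nonneg _)
        have a4 : η i * L.mu i π ≤ δ * L.mu i π := mul_le_mul_of_nonneg_right a1 a2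
        nlinarith
      nlinarith
  obtain ⟨N₁, z₁, hN₁, hz₁⟩ := dirichlet (fun i => ((N : ℝ) + 1) * π i)
    (min (ε / 2) (b / (2 * C))) (lt_min (by positivity) (by positivity))
  let N' := N₁ * (N + 1)
  have hNN : N + 1 ≤ N' := Nat.le_mul_of_pos_left _ hN₁
  have hz₁' : ∀ i, |(z₁ i : ℝ) - (N' : ℝ) * π i| < min (ε / 2) (b / (2 * C)) := by
    intro i
    have := hz₁ i
    have h5 : (N₁ : ℝ) * (((N : ℝ) + 1) * π i) = (N' : ℝ) * π i := by
      change _ = ((N₁ * (N + 1) : ℕ) : ℝ) * π i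
      push_cast
      ring
    rwa [h5] at this
  have hβ' : β (fun j => (z₁ j : ℝ) - (N' : ℝ) * π j) ≤ b / 2 := by
    refine (hC _ (b / (2 * C)) (by positivity) fun i => ?_).trans (le_of_eq ?_)
    · exact ((hz₁' i).trans_le (min_le_right _ _)).le
    · field_simp
  have hg := good (N' - N) (fun j => z₁ j - z j) (by omega) (fun i => by
    have e1 : (((z₁ i - z i : ℤ)) : ℝ) - ((N' - N : ℕ) : ℝ) * π i =
        ((z₁ i : ℝ) - (N' : ℝ) * π i) - ((z i : ℝ) - N * π i) := by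
      rw [Nat.cast_sub (by omega)]
      push_cast
      ring
    rw [e1]
    refine (abs_sub _ _).trans ?_
    have a1 := (hz₁' i).trans_le (min_le_left _ _)
    have a2 := hz i
    linarith)
  have e2 : (fun j => (((z₁ j - z j : ℤ)) : ℝ) - ((N' - N : ℕ) : ℝ) * π j) =
      (fun j => (z₁ j : ℝ) - (N' : ℝ) * π j) - fun j => (z j : ℝ) - N * π j := by
    ext j
    rw [Pi.sub_apply, Nat.cast_sub (by omega)]
    push_cast
    ring
  rw [e2, hβsub] at hg
  linarith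

/-- lattice points close to the multiples of `π` lie in the smallest rational subspace
containing `π` -/
theorem exists_rel (π : κ → ℝ) : ∃ ε : ℝ, 0 < ε ∧ ∀ (N : ℕ) (z : κ → ℤ),
    (∀ i, |(z i : ℝ) - N * π i| < ε) → ∀ r : κ → ℤ, ip π r = 0 → ∑ i, z i * r i = 0 := by
  classical
  let R : Submodule ℤ (κ → ℤ) :=
    { carrier := {r | ip π r = 0}
      zero_mem' := ip_zero π
      add_mem' := by
        intro r s hr hs
        change ip π (r + s) = 0
        have h1 : ip π (r + s) = ip π r + ip π s := by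
          unfold ip
          rw [← Finset.sum_add_distrib]
          refine Finset.sum_congr rfl fun i _ => ?_
          rw [Pi.add_apply]
          push_cast
          ring
        rw [h1, hr, hs, add_zero]
      smul_mem' := by
        intro c r hr
        change ip π (c • r) = 0
        have h1 : ip π (c • r) = c * ip π r := by
          unfold ip
          rw [Finset.mul_sum]
          refine Finset.sum_congr rfl fun i _ => ?_
          rw [Pi.smul_apply, smul_eq_mul]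
          push_cast
          ring
        rw [h1, hr, mul_zero] }
  obtain ⟨S, hS⟩ := IsNoetherian.noetherian R
  let K : ℝ := 1 + ∑ r ∈ S, ∑ i, |(r i : ℝ)|
  have hKpos : 0 < K := by
    have : 0 ≤ ∑ r ∈ S, ∑ i, |(r i : ℝ)| :=
      Finset.sum_nonneg fun r _ => Finset.sum_nonneg fun i _ => abs_nonneg _
    change 0 < 1 + _
    linarith
  refine ⟨1 / K, by positivity, fun N z hz r hr => ?_⟩
  have hgen : ∀ r ∈ S, ∑ i, z i * r i = 0 := by
    intro r hrS
    have h0 : ip π r = 0 := by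
      have : r ∈ R := hS ▸ Submodule.subset_span hrS
      exact this
    have h1 : ip (fun j => (z j : ℝ)) r = ip (fun j => (z j : ℝ) - N * π j) r := by
      have : (fun j => (z j : ℝ)) = (fun j => (z j : ℝ) - N * π j) + (N : ℝ) • π := by
        ext j; simp
      conv_lhs => rw [this]
      rw [ip_add, ip_smul, h0]
      ring
    have h2 := abs_ip_le (fun j => (z j : ℝ) - N * π j) r (1 / K) fun i => (hz i).le
    have h3 : ∑ i, |(r i : ℝ)| < K := by
      have : ∑ i, |(r i : ℝ)| ≤ ∑ r ∈ S, ∑ i, |(r i : ℝ)| :=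
        Finset.single_le_sum (f := fun r : κ → ℤ => ∑ i, |(r i : ℝ)|)
          (fun d _ => Finset.sum_nonneg fun j _ => abs_nonneg _) hrS
      change _ < 1 + _
      linarith
    have h4 : |ip (fun j => (z j : ℝ)) r| < 1 := by
      rw [h1]
      refine h2.trans_lt ?_
      rw [one_div, inv_mul_lt_iff₀ hKpos]
      linarith
    rw [ip_int, ← Int.cast_abs] at h4
    exact Int.abs_lt_one_iff.mp (by exact_mod_cast h4)
  have hr' : r ∈ Submodule.span ℤ (S : Set (κ → ℤ)) := by rw [hS]; exact hr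
  refine Submodule.span_induction (p := fun r _ => ∑ i, z i * r i = 0) (fun r hr => hgen r hr)
    (by simp) (fun r s _ _ hr hs => ?_) (fun c r _ hr => ?_) hr'
  · simp only [Pi.add_apply, mul_add, Finset.sum_add_distrib]
    rw [hr, hs, add_zero]
  · have : ∑ i, z i * (c • r) i = c * ∑ i, z i * r i := by
      rw [Finset.mul_sum]
      exact Finset.sum_congr rfl fun i _ => by simp only [Pi.smul_apply, smul_eq_mul]; ring
    rw [this, hr, mul_zero]

/-- the quadratic growth along a sequence of lattice points -/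
theorem PL.growth_seq (L : PL κ) (X : ℕ → κ → ℝ) (hX : ∀ n, 0 < ‖X n‖) (π : κ → ℝ)
    (hlim : Tendsto (fun n => (‖X n‖)⁻¹ • X n) atTop (𝓝 π)) (δ : ℝ) (hδ : 0 < δ)
    (hmu : ∀ n, δ * ‖X n‖ ≤ ∑ i, L.mu i (X n))
    (hu : Tendsto (fun n => L.u (X n) / ‖X n‖ ^ 2) atTop (𝓝 0)) :
    L.u π = 0 ∧ ∃ i, 0 < L.mu i π := by
  constructor
  · have e1 : Tendsto (fun n => L.u ((‖X n‖)⁻¹ • X n)) atTop (𝓝 (L.u π)) :=
      (L.continuous_u.tendsto π).comp hlim
    refine tendsto_nhds_unique e1 (hu.congr fun n => ?_)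
    rw [L.u_smul _ _ (inv_pos.mpr (hX n)), inv_pow, div_eq_inv_mul]
  · have e1 : Tendsto (fun n => ∑ i, L.mu i ((‖X n‖)⁻¹ • X n)) atTop (𝓝 (∑ i, L.mu i π)) :=
      tendsto_finsetSum _ fun i _ => ((L.continuous_mu i).tendsto π).comp hlim
    have e2 : δ ≤ ∑ i, L.mu i π := by
      refine ge_of_tendsto' e1 fun n => ?_
      have h1 : ∑ i, L.mu i ((‖X n‖)⁻¹ • X n) = (‖X n‖)⁻¹ * ∑ i, L.mu i (X n) := by
        rw [Finset.mul_sum]
        exact Finset.sum_congr rfl fun i _ => L.mu_smul i _ _ (inv_pos.mpr (hX n))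
      rw [h1]
      have h2 := mul_le_mul_of_nonneg_left (hmu n) (inv_pos.mpr (hX n)).le
      have h3 : (‖X n‖)⁻¹ * (δ * ‖X n‖) = δ := by
        field_simp [(hX n).ne']
      linarith
    obtain ⟨i, -, hi⟩ := Finset.exists_lt_of_sum_lt (s := Finset.univ) (f := fun _ : κ => (0 : ℝ))
      (g := fun i => L.mu i π) (by simpa using hδ.trans_le e2)
    exact ⟨i, hi⟩

end Pool.Agent.Helper389_End
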