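import Pool.Agent.Helper389_End.Main

set_option autoImplicit false

/-!
Growth of `dim Hom(V, W) - dim Hom(W, τ V)` for pairs of `τ`-rigid modules.
-/

namespace Pool.Agent.Helper389_End

open Pool.Agent.Helper391_TT Filter Topology

universe u

/-- the pairing of `x` with the dimension vector attached to `y` -/
noncomputable def PL.bb {κ : Type} [Fintype κ] (L : PL κ) (x y : κ → ℝ) : ℝ :=
  ∑ i, x i * L.mu i y

theorem PL.bb_self {κ : Type} [Fintype κ] (L : PL κ) (x : κ → ℝ) : L.bb x x = L.u x := rfl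

theorem PL.continuous_bb {κ : Type} [Fintype κ] (L : PL κ) :
    Continuous fun p : (κ → ℝ) × (κ → ℝ) => L.bb p.1 p.2 := by
  unfold PL.bb
  exact continuous_finsetSum _ fun i _ => ((continuous_apply i).comp continuous_fst).mul
    ((L.continuous_mu i).comp continuous_snd)

theorem PL.bb_smul {κ : Type} [Fintype κ] (L : PL κ) (x y : κ → ℝ) (a b : ℝ) (hb : 0 < b) :
    L.bb (a • x) (b • y) = a * b * L.bb x y := by
  unfold PL.bb
  rw [Finset.mul_sum]
  refine Finset.sum_congr rfl fun i _ => ?_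
  rw [L.mu_smul i y b hb]
  simp only [Pi.smul_apply, smul_eq_mul]
  ring

variable {k A : Type u} [Field k] [Ring A] [Algebra k A] {ι : Type} [Fintype ι]

/-- the real vector of an integral one -/
abbrev re (g : ι → ℤ) : ι → ℝ := fun i => (g i : ℝ)

/-- the index `dim Hom(V, W) - dim Hom(W, τ V)` as a pairing -/
theorem index_eq [Module.Finite k A] (B : ProjBasis k A ι) (V W : FM k A) (hW : IsTauRigid W)
    (g h : ι → ℤ) (hg : B.IsGVec V g) (hh : B.IsGVec W h) (S : MinPres V) :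
    (Module.finrank k (V.X →ₗ[A] W.X) : ℝ) - (Module.finrank k (W.X →ₗ[A] S.tau) : ℝ) =
      (pl B).bb (re g) (re h) := by
  obtain ⟨F, hF, cF, ⟨eF⟩, hmu, -⟩ := taurigid_facts B W hW h hh
  unfold PL.bb
  have h1 : ∑ i, re g i * (pl B).mu i (re h) = ((∑ i, g i * (dd (B.P i) W : ℤ) : ℤ) : ℝ) := by
    push_cast
    exact Finset.sum_congr rfl fun i _ => by rw [hmu i]
  rw [h1, ← hg.cls S W, ← hh_sub_ee, hh_eq, dd_congr_left (V := S.obj.M) (W := V) S.iso,
    ee_eq_dd]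
  push_cast
  rfl

/-- directions of `g`-vectors of `τ`-rigid modules -/
theorem exists_compare' [Module.Finite k A] (B : ProjBasis k A ι) :
    ∃ C : ℝ, 1 ≤ C ∧ ∀ (V : FM k A) (g : ι → ℤ), IsTauRigid V → Nontrivial V.X →
      B.IsGVec V g → 0 < ‖re g‖ ∧ (Module.finrank k V.X : ℝ) ≤ C * ‖re g‖ ∧
      ‖re g‖ ≤ C * ∑ i, (pl B).mu i (re g) := by
  obtain ⟨C, hC1, hC⟩ := exists_compare B
  have hC0 : 0 < C := by linarith
  refine ⟨C * C, by nlinarith, fun V g hV hne hg => ?_⟩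
  obtain ⟨h1, h2, h3⟩ := hC V g hV hg
  have hfr : 0 < (Module.finrank k V.X : ℝ) := by
    exact_mod_cast Module.finrank_pos (R := k) (M := V.X)
  have h4 : (Module.finrank k V.X : ℝ) ≤ C * C * ‖re g‖ := by
    refine h1.trans ?_
    rw [mul_assoc]
    exact mul_le_mul_of_nonneg_left h2 hC0.le
  refine ⟨?_, h4, ?_⟩
  · by_contra h0
    have h5 : ‖re g‖ = 0 := le_antisymm (not_lt.mp h0) (norm_nonneg _)
    rw [h5, mul_zero] at h4
    linarith
  · refine h3.trans ?_
    rw [mul_assoc]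
    exact mul_le_mul_of_nonneg_left h1 hC0.le

/-- the local form for pairs -/
theorem local_pair [Module.Finite k A] (B : ProjBasis k A ι) (V W : ℕ → FM k A)
    (g h : ℕ → ι → ℤ) (hV : ∀ j, IsTauRigid (V j)) (hW : ∀ j, IsTauRigid (W j))
    (nV : ∀ j, Nontrivial (V j).X) (nW : ∀ j, Nontrivial (W j).X)
    (hg : ∀ j, B.IsGVec (V j) (g j)) (hh : ∀ j, B.IsGVec (W j) (h j))
    (S : (j : ℕ) → MinPres (V j)) (π : ι → ℝ)
    (h1 : Tendsto (fun j => (‖re (g j)‖)⁻¹ • re (g j)) atTop (𝓝 π))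
    (h2 : Tendsto (fun j => (‖re (h j)‖)⁻¹ • re (h j)) atTop (𝓝 π))
    (hE : ∀ c : ℝ, 0 < c → ∃ᶠ j in atTop, (Module.finrank k ((V j).X →ₗ[A] (W j).X) : ℝ) <
      Module.finrank k ((W j).X →ₗ[A] (S j).tau) +
        c * Module.finrank k (V j).X * Module.finrank k (W j).X) (ε : ℝ) (hε : 0 < ε) :
    ∃ (N : ℕ) (z : ι → ℤ), 1 ≤ N ∧ (∀ i, |(z i : ℝ) - N * π i| < ε) ∧
      (∀ r : ι → ℤ, ∑ i, π i * (r i : ℝ) = 0 → ∑ i, z i * r i = 0) ∧
      (fun i => (z i : ℝ)) ∉ B.gFan := by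
  classical
  obtain ⟨C, hC1, hC⟩ := exists_compare' B
  have hC0 : 0 < C := by linarith
  -- `μ(π) ≠ 0`
  have hpos : ∃ i, 0 < (pl B).mu i π := by
    have e1 : Tendsto (fun n => ∑ i, (pl B).mu i ((‖re (g n)‖)⁻¹ • re (g n))) atTop
        (𝓝 (∑ i, (pl B).mu i π)) :=
      tendsto_finsetSum _ fun i _ => (((pl B).continuous_mu i).tendsto π).comp h1
    have e2 : 1 / C ≤ ∑ i, (pl B).mu i π := by
      refine ge_of_tendsto' e1 fun n => ?_
      obtain ⟨h0, -, h3⟩ := hC (V n) (g n) (hV n) (nV n) (hg n)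
      have h4 : ∑ i, (pl B).mu i ((‖re (g n)‖)⁻¹ • re (g n)) =
          (‖re (g n)‖)⁻¹ * ∑ i, (pl B).mu i (re (g n)) := by
        rw [Finset.mul_sum]
        exact Finset.sum_congr rfl fun i _ => (pl B).mu_smul i _ _ (inv_pos.mpr h0)
      rw [h4, div_le_iff₀ hC0, mul_comm, ← mul_assoc, mul_comm C, mul_assoc,
        ← div_eq_inv_mul, one_le_div h0]
      exact h3
    obtain ⟨i, -, hi⟩ := Finset.exists_lt_of_sum_lt (s := Finset.univ)
      (f := fun _ : ι => (0 : ℝ)) (g := fun i => (pl B).mu i π)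
      (by simpa using (by positivity : 0 < 1 / C).trans_le e2)
    exact ⟨i, hi⟩
  -- `u(π) ≤ 0`
  have hu : ¬ 0 < (pl B).u π := by
    intro hu
    have e1 : Tendsto (fun n => (pl B).bb ((‖re (g n)‖)⁻¹ • re (g n))
        ((‖re (h n)‖)⁻¹ • re (h n))) atTop (𝓝 ((pl B).u π)) :=
      ((pl B).continuous_bb.tendsto (π, π)).comp (h1.prodMk_nhds h2)
    have e2 : ∀ᶠ n in atTop, (pl B).u π / 2 < (pl B).bb ((‖re (g n)‖)⁻¹ • re (g n))
        ((‖re (h n)‖)⁻¹ • re (h n)) := e1.eventually_const_lt (by linarith)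
    obtain ⟨n, hn1, hn2⟩ := ((hE ((pl B).u π / 2 / (C * C)) (by positivity)).and_eventually
      e2).exists
    obtain ⟨a0, a1, -⟩ := hC (V n) (g n) (hV n) (nV n) (hg n)
    obtain ⟨b0, b1, -⟩ := hC (W n) (h n) (hW n) (nW n) (hh n)
    have e3 := index_eq B (V n) (W n) (hW n) (g n) (h n) (hg n) (hh n) (S n)
    rw [(pl B).bb_smul _ _ _ _ (inv_pos.mpr b0), ← e3, ← mul_inv, ← div_eq_inv_mul,
      lt_div_iff₀ (mul_pos a0 b0)] at hn2
    have e4 : (Module.finrank k (V n).X : ℝ) * Module.finrank k (W n).X ≤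
        (C * ‖re (g n)‖) * (C * ‖re (h n)‖) :=
      mul_le_mul a1 b1 (Nat.cast_nonneg _) (by positivity)
    have e5 : (pl B).u π / 2 / (C * C) * Module.finrank k (V n).X * Module.finrank k (W n).X ≤
        (pl B).u π / 2 * (‖re (g n)‖ * ‖re (h n)‖) := by
      rw [mul_assoc, div_mul_eq_mul_div, div_le_iff₀ (by positivity)]
      calc (pl B).u π / 2 * ((Module.finrank k (V n).X : ℝ) * Module.finrank k (W n).X) ≤
          (pl B).u π / 2 * ((C * ‖re (g n)‖) * (C * ‖re (h n)‖)) :=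
            mul_le_mul_of_nonneg_left e4 (by linarith)
        _ = _ := by ring
    linarith
  obtain ⟨ε', hε', hrel⟩ := exists_rel π
  by_contra hcon
  push Not at hcon
  apply hu
  refine (pl B).pos π (min ε ε') (lt_min hε hε') (fun N x hN hx hi => ?_) hpos
  refine one_le_u B x ?_ hi
  refine hcon N x hN (fun i => (hx i).trans_le (min_le_left _ _)) fun r hr => ?_
  exact hrel N x (fun i => (hx i).trans_le (min_le_right _ _)) r hr

/-- the colouring -/
theorem colouring [Module.Finite k A] (B : ProjBasis k A ι)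
    (hall : ∀ v : ι → ℚ, v ≠ 0 → (fun i => (v i : ℝ)) ∈ B.gFan) :
    ∃ (c : ℝ) (m : ℕ) (f : FM k A → Fin m), 0 < c ∧ ∀ V W : FM k A, IsTauRigid V →
      IsTauRigid W → Nontrivial V.X → Nontrivial W.X → f V = f W → ∀ S : MinPres V,
      c * Module.finrank k V.X * Module.finrank k W.X + Module.finrank k (W.X →ₗ[A] S.tau) ≤
        (Module.finrank k (V.X →ₗ[A] W.X) : ℝ) := by
  classical
  obtain ⟨C, hC1, hC⟩ := exists_compare' B
  have hC0 : 0 < C := by linarith
  -- positivity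
  have hpos : ∀ π : ι → ℝ, (∃ i, 0 < (pl B).mu i π) → 0 < (pl B).u π := by
    intro π hπ
    refine (pl B).pos π 1 one_pos (fun N x _ _ hi => ?_) hπ
    refine one_le_u B x ?_ hi
    by_cases hx : x = 0
    · exfalso
      obtain ⟨i, hi⟩ := hi
      obtain ⟨d, -, hd⟩ := (pl B).exists_mu i (fun j => (x j : ℝ))
      rw [hd, hx] at hi
      unfold ip at hi
      simp at hi
    · have h1 := hall (fun i => (x i : ℚ)) (by
        intro h0
        apply hx
        funext i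
        have := congrFun h0 i
        simp only [Pi.zero_apply] at this
        exact_mod_cast this)
      have h2 : (fun i => (((x i : ℚ)) : ℝ)) = fun i => (x i : ℝ) := by
        funext i
        push_cast
        rfl
      rw [h2] at h1
      exact h1
  -- the compact set of directions
  let K : Set (ι → ℝ) := Metric.sphere 0 1 ∩ {x | 1 / C ≤ ∑ i, (pl B).mu i x}
  have hK : IsCompact K := (isCompact_sphere _ _).inter_right
    (isClosed_le continuous_const (continuous_finsetSum _ fun i _ => (pl B).continuous_mu i))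
  have hU : ∀ π ∈ K, ∃ U : Set (ι → ℝ), IsOpen U ∧ π ∈ U ∧ ∀ x ∈ U, ∀ y ∈ U,
      (pl B).u π / 2 < (pl B).bb x y := by
    intro π hπ
    obtain ⟨i, -, hi⟩ := Finset.exists_lt_of_sum_lt (s := Finset.univ)
      (f := fun _ : ι => (0 : ℝ)) (g := fun i => (pl B).mu i π)
      (by simpa using (by positivity : 0 < 1 / C).trans_le hπ.2)
    have h1 := hpos π ⟨i, hi⟩
    have h2 : ∀ᶠ p in 𝓝 (π, π), (pl B).u π / 2 < (pl B).bb p.1 p.2 :=
      ((pl B).continuous_bb.tendsto (π, π)).eventually_const_lt (by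
        rw [(pl B).bb_self]
        linarith)
    rw [nhds_prod_eq] at h2
    obtain ⟨P, hP, Q, hQ, h3⟩ := Filter.eventually_prod_iff.mp h2
    have h4 : ∀ᶠ x in 𝓝 π, P x ∧ Q x := hP.and hQ
    obtain ⟨U, hU1, hU2, hU3⟩ := eventually_nhds_iff.mp h4
    exact ⟨U, hU2, hU3, fun x hx y hy => h3 (hU1 x hx).1 (hU1 y hy).2⟩
  choose! U hUo hUm hUb using hU
  have huK : ∀ π ∈ K, 0 < (pl B).u π := by
    intro π hπ
    obtain ⟨i, -, hi⟩ := Finset.exists_lt_of_sum_lt (s := Finset.univ)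
      (f := fun _ : ι => (0 : ℝ)) (g := fun i => (pl B).mu i π)
      (by simpa using (by positivity : 0 < 1 / C).trans_le hπ.2)
    exact hpos π ⟨i, hi⟩
  obtain ⟨t, htc⟩ := hK.elim_nhds_subcover' (fun π _ => U π)
    (fun π hπ => (hUo π hπ).mem_nhds (hUm π hπ))
  -- a lower bound
  obtain ⟨c₀, hc₀, hc₀t⟩ : ∃ c₀ : ℝ, 0 < c₀ ∧ ∀ π ∈ t, c₀ ≤ (pl B).u π.1 / 2 := by
    by_cases hne : t.Nonempty
    · obtain ⟨π₀, h0, h1⟩ := t.exists_min_image (fun π => (pl B).u π.1 / 2) hne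
      exact ⟨(pl B).u π₀.1 / 2, by have := huK _ π₀.2; linarith, h1⟩
    · refine ⟨1, one_pos, fun π hπ => absurd ⟨π, hπ⟩ hne⟩
  choose g hg using fun V : FM k A => B.exists_gvec V
  -- the colours
  let T := Option {π // π ∈ t}
  let e : T ≃ Fin (Fintype.card T) := Fintype.equivFin T
  let col : FM k A → T := fun V =>
    if h : ∃ π : {π // π ∈ t}, (‖re (g V)‖)⁻¹ • re (g V) ∈ U π.1.1 then some h.choose else none
  have hdir : ∀ V : FM k A, IsTauRigid V → Nontrivial V.X →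
      ∃ π : {π // π ∈ t}, (‖re (g V)‖)⁻¹ • re (g V) ∈ U π.1.1 := by
    intro V hV nV
    obtain ⟨h0, -, h3⟩ := hC V (g V) hV nV (hg V)
    have h4 : (‖re (g V)‖)⁻¹ • re (g V) ∈ K := by
      constructor
      · rw [mem_sphere_zero_iff_norm, norm_smul, norm_inv, norm_norm, inv_mul_cancel₀ h0.ne']
      · have h4 : ∑ i, (pl B).mu i ((‖re (g V)‖)⁻¹ • re (g V)) =
            (‖re (g V)‖)⁻¹ * ∑ i, (pl B).mu i (re (g V)) := by
          rw [Finset.mul_sum]
          exact Finset.sum_congr rfl fun i _ => (pl B).mu_smul i _ _ (inv_pos.mpr h0)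
        change 1 / C ≤ ∑ i, (pl B).mu i _
        rw [h4, div_le_iff₀ hC0, mul_comm, ← mul_assoc, mul_comm C, mul_assoc,
          ← div_eq_inv_mul, one_le_div h0]
        exact h3
    obtain ⟨π, hπt, hπ⟩ := Set.mem_iUnion₂.mp (htc h4)
    exact ⟨⟨π, hπt⟩, hπ⟩
  refine ⟨c₀ / (C * C), Fintype.card T, fun V => e (col V), by positivity, ?_⟩
  intro V W hV hW nV nW hf S
  have hcol : col V = col W := e.injective hf
  have e1 := hdir V hV nV
  have e2 := hdir W hW nW
  have f1 : col V = some e1.choose := dif_pos e1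
  have f2 : col W = some e2.choose := dif_pos e2
  have f3 : e1.choose = e2.choose := by
    rw [f1, f2] at hcol
    exact Option.some_injective _ hcol
  have g1 := e1.choose_spec
  have g2 := e2.choose_spec
  rw [← f3] at g2
  have h5 := hUb _ e1.choose.1.2 _ g1 _ g2
  have h6 := hc₀t _ e1.choose.2
  obtain ⟨a0, a1, -⟩ := hC V (g V) hV nV (hg V)
  obtain ⟨b0, b1, -⟩ := hC W (g W) hW nW (hg W)
  have e3 := index_eq B V W hW (g V) (g W) (hg V) (hg W) S
  rw [(pl B).bb_smul _ _ _ _ (inv_pos.mpr b0), ← e3, ← mul_inv, ← div_eq_inv_mul] at h5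
  have h7 := h6.trans h5.le
  rw [le_div_iff₀ (mul_pos a0 b0)] at h7
  have e4 : (Module.finrank k V.X : ℝ) * Module.finrank k W.X ≤
      (C * ‖re (g V)‖) * (C * ‖re (g W)‖) :=
    mul_le_mul a1 b1 (Nat.cast_nonneg _) (by positivity)
  have e5 : c₀ / (C * C) * Module.finrank k V.X * Module.finrank k W.X ≤
      c₀ * (‖re (g V)‖ * ‖re (g W)‖) := by
    rw [mul_assoc, div_mul_eq_mul_div, div_le_iff₀ (by positivity)]
    calc c₀ * ((Module.finrank k V.X : ℝ) * Module.finrank k W.X) ≤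
        c₀ * ((C * ‖re (g V)‖) * (C * ‖re (g W)‖)) :=
          mul_le_mul_of_nonneg_left e4 hc₀.le
      _ = _ := by ring
  linarith

end Pool.Agent.Helper389_End
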