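import Pool.Agent.Helper391_TT.Codim
import Pool.Agent.Helper389_End.Pl

set_option autoImplicit false

/-!
Dimension vectors and endomorphism dimensions of the cokernels of rigid objects as piecewise
linear and piecewise quadratic functions of the class.
-/

namespace Pool.Agent.Helper389_End

open Pool.Agent.Helper391_TT Filter Topology

universe u

variable {k A : Type u} [Field k] [Ring A] [Algebra k A]

theorem dd_congr_right (X : FM k A) {Y Z : FM k A} (e : Y.X ≃ₗ[A] Z.X) : dd X Y = dd X Z := by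
  have key : ∀ {Y Z : FM k A}, (Y.X ≃ₗ[A] Z.X) → dd X Y ≤ dd X Z := by
    intro Y Z e
    have hpk : ∀ (c : k) (x : Y.X), e (c • x) = c • e x := by
      intro c x
      rw [← algebraMap_smul A c x, map_smul, algebraMap_smul]
    let T : (X.X →ₗ[A] Y.X) →ₗ[k] (X.X →ₗ[A] Z.X) :=
      { toFun := fun φ => e.toLinearMap ∘ₗ φ
        map_add' := fun _ _ => LinearMap.comp_add _ _ _
        map_smul' := fun c φ => by ext x; exact hpk c (φ x) }
    refine LinearMap.finrank_le_finrank_of_injective (f := T) ?_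
    intro a b hab
    ext x
    exact e.injective (LinearMap.congr_fun hab x)
  exact le_antisymm (key e) (key e.symm)

theorem ee_shift_eq (P : FM k A) (hP : Module.Projective A P.X) (X : FM k A) :
    ee (Obj.shift P hP) X = dd P X := by
  have h1 := hh_sub_ee (Obj.shift P hP) X
  rw [chi_shift] at h1
  have h2 : hh (Obj.shift P hP) X = 0 := by
    rw [hh_eq]
    apply dd_eq_zero_of
    intro φ
    have := shift_M P hP
    refine LinearMap.ext fun x => ?_
    rw [Subsingleton.elim x 0, map_zero, map_zero]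
  omega

variable {ι : Type}

/-- the injective modules `D Hom_A(Pᵢ, A)` -/
abbrev inj [Module.Finite k A] (B : ProjBasis k A ι) (i : ι) : FM k A :=
  (Obj.shift (B.P i) (B.proj i)).N

theorem dd_inj [Module.Finite k A] (B : ProjBasis k A ι) (i : ι) (X : FM k A) :
    dd (B.P i) X = dd X (inj B i) := by
  rw [← ee_shift_eq (B.P i) (B.proj i) X, ee_eq_dd]

variable [Fintype ι]

/-- the dimension vector of a module -/
noncomputable def dv (B : ProjBasis k A ι) (X : FM k A) : ι → ℤ := fun j => (dd (B.P j) X : ℤ)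

omit [Fintype ι] in
theorem dv_bot (B : ProjBasis k A ι) (X : FM k A) : dv B (X.sub ⊥) = 0 := by
  funext j
  change ((dd (B.P j) (X.sub ⊥) : ℕ) : ℤ) = 0
  rw [dd_eq_zero_of (X := B.P j) (Y := X.sub ⊥) fun φ =>
    LinearMap.ext fun x => Subsingleton.elim (α := (⊥ : Submodule A X.X)) _ _]
  rfl

theorem dv_finite (B : ProjBasis k A ι) (X : FM k A) :
    {d : ι → ℤ | ∃ N : Submodule A X.X, dv B (X.sub N) = d}.Finite := by
  classical
  refine (Set.finite_Icc (0 : ι → ℤ) (dv B X)).subset ?_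
  rintro _ ⟨N, rfl⟩
  refine ⟨fun j => ?_, fun j => ?_⟩
  · exact Int.natCast_nonneg _
  · change ((dd (B.P j) (X.sub N) : ℕ) : ℤ) ≤ (dd (B.P j) X : ℕ)
    exact_mod_cast dd_le_sub (B.P j) X N

/-- the dimension vectors of the submodules of the injective modules -/
noncomputable def pl [Module.Finite k A] (B : ProjBasis k A ι) : PL ι where
  D i := (dv_finite B (inj B i)).toFinset
  zero_mem i := by
    rw [Set.Finite.mem_toFinset]
    exact ⟨⊥, dv_bot B _⟩

theorem mem_pl [Module.Finite k A] (B : ProjBasis k A ι) (i : ι) (d : ι → ℤ) :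
    d ∈ (pl B).D i ↔ ∃ N : Submodule A (inj B i).X, dv B ((inj B i).sub N) = d :=
  Set.Finite.mem_toFinset _

theorem ip_dv (B : ProjBasis k A ι) (F : Obj k A) (x : ι → ℤ) (hx : B.Cls F x) (X : FM k A) :
    ip (fun i => (x i : ℝ)) (dv B X) = (chi F X : ℝ) := by
  rw [hx X, ip_int]
  rfl

theorem mu_eq_dd [Module.Finite k A] (B : ProjBasis k A ι) (F : Obj k A) (hF : Rigid F)
    (x : ι → ℤ) (hx : B.Cls F x) (i : ι) :
    (pl B).mu i (fun j => (x j : ℝ)) = (dd (B.P i) F.M : ℝ) := by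
  apply le_antisymm
  · refine (pl B).mu_le i _ _ fun d hd => ?_
    obtain ⟨N, rfl⟩ := (mem_pl B i d).mp hd
    rw [ip_dv B F x hx]
    have h1 := hh_sub_ee F ((inj B i).sub N)
    have h2 : hh F ((inj B i).sub N) ≤ dd (B.P i) F.M := by
      rw [hh_eq, dd_inj]
      exact dd_le_sub F.M (inj B i) N
    have h3 : chi F ((inj B i).sub N) ≤ (dd (B.P i) F.M : ℤ) := by omega
    exact_mod_cast h3
  · obtain ⟨N, h1, -⟩ := hh_formula F hF (inj B i)
    rw [hh_eq, ← dd_inj] at h1
    have h2 := (pl B).le_mu i (fun j => (x j : ℝ)) _ ((mem_pl B i _).mpr ⟨N, rfl⟩)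
    rw [ip_dv B F x hx] at h2
    have h3 : ((dd (B.P i) F.M : ℤ) : ℝ) ≤ (chi F ((inj B i).sub N) : ℝ) := by exact_mod_cast h1
    have h4 : ((dd (B.P i) F.M : ℤ) : ℝ) = (dd (B.P i) F.M : ℝ) := by push_cast; rfl
    linarith

theorem u_eq_dd [Module.Finite k A] (B : ProjBasis k A ι) (F : Obj k A) (hF : Rigid F)
    (x : ι → ℤ) (hx : B.Cls F x) :
    (pl B).u (fun j => (x j : ℝ)) = (dd F.M F.M : ℝ) := by
  unfold PL.u
  have h1 : ∀ i, (x i : ℝ) * (pl B).mu i (fun j => (x j : ℝ)) =
      ((x i * (dd (B.P i) F.M : ℤ) : ℤ) : ℝ) := by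
    intro i
    rw [mu_eq_dd B F hF x hx]
    push_cast
    rfl
  rw [Finset.sum_congr rfl fun i _ => h1 i, ← Int.cast_sum, ← hx F.M, ← hh_sub_ee, hh_eq]
  unfold Rigid at hF
  rw [hF]
  push_cast
  ring

theorem one_le_u [Module.Finite k A] (B : ProjBasis k A ι) (x : ι → ℤ)
    (hx : (fun i => (x i : ℝ)) ∈ B.gFan) (h : ∃ i, 0 < (pl B).mu i fun j => (x j : ℝ)) :
    1 ≤ (pl B).u fun j => (x j : ℝ) := by
  obtain ⟨F, hF, cF⟩ := rigid_of_mem B x hx
  obtain ⟨i, hi⟩ := h
  rw [mu_eq_dd B F hF x cF] at hi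
  rw [u_eq_dd B F hF x cF]
  have h1 : 1 ≤ dd F.M F.M := by
    refine dd_pos_of_ne (X := F.M) (Y := F.M) LinearMap.id ?_
    intro h0
    have h2 : dd (B.P i) F.M = 0 := by
      apply dd_eq_zero_of
      intro φ
      refine LinearMap.ext fun y => ?_
      have := LinearMap.congr_fun h0 (φ y)
      exact this
    rw [h2] at hi
    simp at hi
  exact_mod_cast h1

end Pool.Agent.Helper389_End
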