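import Pool.Agent.Helper389_End.Mod

set_option autoImplicit false

/-!
Bounds for the terms of minimal presentations.
-/

namespace Pool.Agent.Helper389_End

open Pool.Agent.Helper391_TT Filter Topology

universe u

variable {k A : Type u} [Field k] [Ring A] [Algebra k A]

/-- a free cover -/
theorem exists_free [Module.Finite k A] (M : FM k A) :
    ∃ (Q : FM k A) (_ : Module.Projective A Q.X) (π : Q.X →ₗ[A] M.X), Function.Surjective π ∧
      Module.finrank k Q.X = Module.finrank k M.X * Module.finrank k A := by
  classical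
  let n := Module.finrank k M.X
  let b := Module.finBasis k M.X
  let Q : FM k A := ⟨Fin n → A⟩
  refine ⟨Q, inferInstanceAs (Module.Projective A (Fin n → A)), ?_⟩
  refine ⟨(Fintype.linearCombination A b : (Fin n → A) →ₗ[A] M.X), ?_, ?_⟩
  · intro m
    refine ⟨fun i => algebraMap k A (b.repr m i), ?_⟩
    rw [Fintype.linearCombination_apply]
    conv_rhs => rw [← b.sum_repr m]
    exact Finset.sum_congr rfl fun i _ => algebraMap_smul A _ _
  · change Module.finrank k (Fin n → A) = _
    rw [Module.finrank_pi_fintype]
    simp [n]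

/-- a projective cover has dimension at most `dim K dim A` -/
theorem finrank_cover_le [Module.Finite k A] (K : FM k A) (Q₀ : FM k A)
    [Module.Projective A Q₀.X] (π₀ : Q₀.X →ₗ[A] K.X) (h₀ : Function.Surjective π₀)
    (hs : Helper391_TT.Small (LinearMap.ker π₀)) :
    Module.finrank k Q₀.X ≤ Module.finrank k K.X * Module.finrank k A := by
  obtain ⟨Q, hQ, π, hπ, hdim⟩ := exists_free K
  obtain ⟨a, c, -, -, hac⟩ := cover_retract Q Q₀ π π₀ hπ h₀ hs
  rw [← hdim]
  refine LinearMap.finrank_le_finrank_of_surjective (f := a.restrictScalars k) ?_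
  intro y
  exact ⟨c y, hac y⟩

theorem minPres_bound [Module.Finite k A] {V : FM k A} (S : MinPres V) :
    Module.finrank k S.P₀.X ≤ Module.finrank k V.X * Module.finrank k A ∧
    Module.finrank k S.P₁.X ≤ Module.finrank k V.X * Module.finrank k A * Module.finrank k A := by
  have h1 := finrank_cover_le V S.P₀ S.π S.surj S.min₀
  refine ⟨h1, ?_⟩
  have h2 := finrank_cover_le (S.P₀.sub (LinearMap.range S.f)) S.P₁ S.f.rangeRestrict
    S.f.surjective_rangeRestrict (by rw [LinearMap.ker_rangeRestrict]; exact S.min₁)
  refine h2.trans (Nat.mul_le_mul_right _ (le_trans ?_ h1))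
  exact LinearMap.finrank_le_finrank_of_injective
    (f := (LinearMap.range S.f).subtype.restrictScalars k) (LinearMap.range S.f).subtype_injective

variable {ι : Type}

theorem hasClass_le (B : ProjBasis k A ι) {Q : FM k A} {a : ι → ℕ} (h : B.HasClass Q a) (i : ι) :
    a i ≤ Module.finrank k Q.X := by
  classical
  obtain ⟨n, c, ⟨e⟩, ha⟩ := h
  have h1 : Module.finrank k Q.X = ∑ j, Module.finrank k (B.P (c j)).X := by
    have e2 : Q.X ≃ₗ[k] ((j : Fin n) → (B.P (c j)).X) :=
      { toFun := e
        map_add' := map_add e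
        map_smul' := by
          intro s x
          rw [← algebraMap_smul A s x, map_smul, algebraMap_smul]
          rfl
        invFun := e.symm
        left_inv := e.left_inv
        right_inv := e.right_inv }
    rw [e2.finrank_eq, Module.finrank_pi_fintype]
  have h2 : n ≤ Module.finrank k Q.X := by
    rw [h1]
    have h3 : ∑ _j : Fin n, 1 ≤ ∑ j, Module.finrank k (B.P (c j)).X := by
      refine Finset.sum_le_sum fun j _ => ?_
      have := (B.indec (c j)).1
      exact Module.finrank_pos
    simpa using h3
  rw [ha i]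
  refine le_trans ?_ h2
  rw [Nat.card_eq_fintype_card]
  exact (Fintype.card_subtype_le _).trans (by simp)

/-- the `g`-vector is bounded by the dimension -/
theorem gvec_bound [Module.Finite k A] (B : ProjBasis k A ι) (V : FM k A) (g : ι → ℤ)
    (hg : B.IsGVec V g) (i : ι) :
    |g i| ≤ Module.finrank k V.X * (Module.finrank k A + Module.finrank k A ^ 2) := by
  obtain ⟨S, a, b, ha, hb, hab⟩ := hg
  obtain ⟨h1, h2⟩ := minPres_bound S
  have h3 := hasClass_le B ha i
  have h4 := hasClass_le B hb i
  rw [hab i]
  have h5 : |(a i : ℤ) - b i| ≤ (a i : ℤ) + b i := by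
    rw [abs_le]
    constructor <;> omega
  refine h5.trans ?_
  have h6 : a i + b i ≤ Module.finrank k V.X * Module.finrank k A +
      Module.finrank k V.X * Module.finrank k A * Module.finrank k A := by omega
  have h7 : (a i : ℤ) + b i ≤ ((Module.finrank k V.X * Module.finrank k A +
      Module.finrank k V.X * Module.finrank k A * Module.finrank k A : ℕ) : ℤ) := by
    exact_mod_cast h6
  refine h7.trans (le_of_eq ?_)
  push_cast
  ring

variable [Fintype ι]

/-- the dimension is bounded by the dimension vector -/
theorem exists_dim_bound [Module.Finite k A] (B : ProjBasis k A ι) :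
    ∃ C : ℕ, 1 ≤ C ∧ ∀ V : FM k A, Module.finrank k V.X ≤ C * ∑ i, dd (B.P i) V := by
  classical
  let R : FM k A := ⟨A⟩
  have hR : Module.Projective A R.X := inferInstanceAs (Module.Projective A A)
  obtain ⟨a, ha⟩ := B.exists_class R hR
  refine ⟨1 + ∑ i, a i, by omega, fun V => ?_⟩
  have h1 : Module.finrank k V.X = dd R V := by
    unfold dd
    exact (LinearEquiv.finrank_eq (LinearMap.ringLmapEquivSelf A k V.X)).symm
  rw [h1, ha.dd_eq, Finset.mul_sum]
  refine Finset.sum_le_sum fun i _ => Nat.mul_le_mul_right _ ?_
  have : a i ≤ ∑ i, a i := Finset.single_le_sum (fun i _ => Nat.zero_le _) (Finset.mem_univ i)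
  omega

end Pool.Agent.Helper389_End
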