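import Pool.Agent.Helper389_End.Bound

set_option autoImplicit false

/-!
Growth of the endomorphism algebras of `τ`-rigid modules.
-/

namespace Pool.Agent.Helper389_End

open Pool.Agent.Helper391_TT Filter Topology

universe u

variable {k A : Type u} [Field k] [Ring A] [Algebra k A] {ι : Type} [Fintype ι]

/-- a `τ`-rigid module and its `g`-vector -/
theorem taurigid_facts [Module.Finite k A] (B : ProjBasis k A ι) (V : FM k A)
    (hV : IsTauRigid V) (g : ι → ℤ) (hg : B.IsGVec V g) :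
    ∃ F : Obj k A, Rigid F ∧ B.Cls F g ∧ Nonempty (F.M.X ≃ₗ[A] V.X) ∧
      (∀ i, (pl B).mu i (fun j => (g j : ℝ)) = (dd (B.P i) V : ℝ)) ∧
      (pl B).u (fun j => (g j : ℝ)) = (dd V V : ℝ) := by
  rw [isTauRigid_iff] at hV
  obtain ⟨S, hS⟩ := hV
  have h1 : Rigid S.obj := by
    unfold Rigid
    rw [ee_congr S.obj (X := S.obj.M) (Y := V) S.iso]
    exact hS
  have h2 := hg.cls S
  refine ⟨S.obj, h1, h2, ⟨S.iso⟩, fun i => ?_, ?_⟩
  · rw [mu_eq_dd B S.obj h1 g h2, dd_congr_right (B.P i) (Y := S.obj.M) (Z := V) S.iso]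
  · rw [u_eq_dd B S.obj h1 g h2, dd_congr_right S.obj.M (Y := S.obj.M) (Z := V) S.iso,
      dd_congr_left (V := S.obj.M) (W := V) S.iso]

/-- comparison of `dim V` with the norm of the `g`-vector -/
theorem exists_compare [Module.Finite k A] (B : ProjBasis k A ι) :
    ∃ C : ℝ, 1 ≤ C ∧ ∀ (V : FM k A) (g : ι → ℤ), IsTauRigid V → B.IsGVec V g →
      (Module.finrank k V.X : ℝ) ≤ C * ∑ i, (pl B).mu i (fun j => (g j : ℝ)) ∧
      (∑ i, (pl B).mu i (fun j => (g j : ℝ))) ≤ C * ‖(fun j => (g j : ℝ) : ι → ℝ)‖ ∧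
      ‖(fun j => (g j : ℝ) : ι → ℝ)‖ ≤ C * (Module.finrank k V.X : ℝ) := by
  obtain ⟨C₁, hC₁, h1⟩ := exists_dim_bound B
  obtain ⟨K, hK1, hK⟩ := (pl B).exists_bound
  let m : ℝ := Module.finrank k A
  have hm : 0 ≤ m := Nat.cast_nonneg _
  have hC₁' : (1 : ℝ) ≤ C₁ := by exact_mod_cast hC₁
  have hcard : (0 : ℝ) ≤ Fintype.card ι := Nat.cast_nonneg _
  have hKc : 0 ≤ K * Fintype.card ι := by positivity
  have hmm : 0 ≤ m + m ^ 2 := by positivity
  refine ⟨C₁ + K * Fintype.card ι + (m + m ^ 2), by linarith, fun V g hV hg => ?_⟩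
  obtain ⟨F, hF, cF, -, hmu, hu⟩ := taurigid_facts B V hV g hg
  have hs : 0 ≤ ∑ i, (pl B).mu i (fun j => (g j : ℝ)) :=
    Finset.sum_nonneg fun i _ => (pl B).mu_nonneg i _
  refine ⟨?_, ?_, ?_⟩
  · have h2 : (Module.finrank k V.X : ℝ) ≤ C₁ * ∑ i, (dd (B.P i) V : ℝ) := by
      exact_mod_cast h1 V
    rw [Finset.sum_congr rfl fun i _ => (hmu i).symm] at h2
    refine h2.trans (mul_le_mul_of_nonneg_right (by linarith) hs)
  · have h2 : ∑ i, (pl B).mu i (fun j => (g j : ℝ)) ≤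
        ∑ _i : ι, K * ‖(fun j => (g j : ℝ) : ι → ℝ)‖ := by
      refine Finset.sum_le_sum fun i _ => (pl B).mu_le i _ _ fun d hd => ?_
      refine (le_abs_self _).trans ((abs_ip_le _ d ‖(fun j => (g j : ℝ) : ι → ℝ)‖ fun j => ?_).trans
        ?_)
      · exact norm_le_pi_norm (fun j => (g j : ℝ)) j
      · rw [mul_comm]
        exact mul_le_mul_of_nonneg_right (hK i d hd) (norm_nonneg _)
    refine h2.trans ?_
    rw [Finset.sum_const, nsmul_eq_mul, Finset.card_univ, ← mul_assoc]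
    refine mul_le_mul_of_nonneg_right ?_ (norm_nonneg _)
    nlinarith
  · rw [pi_norm_le_iff_of_nonneg (by positivity)]
    intro i
    rw [Real.norm_eq_abs]
    have h2 := gvec_bound B V g hg i
    have h3 : |(g i : ℝ)| ≤ Module.finrank k V.X * (m + m ^ 2) := by
      have h4 : ((|g i| : ℤ) : ℝ) ≤ ((Module.finrank k V.X *
        (Module.finrank k A + Module.finrank k A ^ 2) : ℤ) : ℝ) := Int.cast_le.mpr h2
      push_cast at h4
      exact h4
    refine h3.trans ?_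
    rw [mul_comm]
    exact mul_le_mul_of_nonneg_right (by linarith) (Nat.cast_nonneg _)

/-- the local form -/
theorem local_form [Module.Finite k A] (B : ProjBasis k A ι) (V : ℕ → FM k A) (g : ℕ → ι → ℤ)
    (hV : ∀ j, IsTauRigid (V j)) (hne : ∀ j, Nontrivial (V j).X) (hg : ∀ j, B.IsGVec (V j) (g j))
    (π : ι → ℝ)
    (hπ : Tendsto (fun j => (‖(fun i => (g j i : ℝ) : ι → ℝ)‖)⁻¹ • (fun i => (g j i : ℝ) : ι → ℝ))
      atTop (𝓝 π))
    (hE : Tendsto (fun j => (Module.finrank k ((V j).X →ₗ[A] (V j).X) : ℝ) /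
      (Module.finrank k (V j).X : ℝ) ^ 2) atTop (𝓝 0)) (ε : ℝ) (hε : 0 < ε) :
    ∃ (N : ℕ) (z : ι → ℤ), 1 ≤ N ∧ (∀ i, |(z i : ℝ) - N * π i| < ε) ∧
      (∀ r : ι → ℤ, ∑ i, π i * (r i : ℝ) = 0 → ∑ i, z i * r i = 0) ∧
      (fun i => (z i : ℝ)) ∉ B.gFan := by
  classical
  obtain ⟨C, hC1, hC⟩ := exists_compare B
  have hC0 : 0 < C := by linarith
  let X : ℕ → ι → ℝ := fun n i => (g n i : ℝ)
  have hfr : ∀ n, 0 < (Module.finrank k (V n).X : ℝ) := fun n => by
    have := hne n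
    exact_mod_cast Module.finrank_pos (R := k) (M := (V n).X)
  have hX0 : ∀ n, 0 < ‖X n‖ := by
    intro n
    obtain ⟨h1, h2, -⟩ := hC (V n) (g n) (hV n) (hg n)
    have h3 := hfr n
    by_contra h0
    have h4 : ‖X n‖ = 0 := le_antisymm (not_lt.mp h0) (norm_nonneg _)
    change _ ≤ C * ‖X n‖ at h2
    rw [h4, mul_zero] at h2
    nlinarith
  have hu : Tendsto (fun n => (pl B).u (X n) / ‖X n‖ ^ 2) atTop (𝓝 0) := by
    have e1 : Tendsto (fun n => C ^ 4 * ((Module.finrank k ((V n).X →ₗ[A] (V n).X) : ℝ) /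
      (Module.finrank k (V n).X : ℝ) ^ 2)) atTop (𝓝 0) := by
      simpa using hE.const_mul (C ^ 4)
    refine squeeze_zero (fun n => ?_) (fun n => ?_) e1
    · obtain ⟨F, hF, cF, -, -, hu⟩ := taurigid_facts B (V n) (hV n) (g n) (hg n)
      change 0 ≤ (pl B).u (fun j => (g n j : ℝ)) / _
      rw [hu]
      positivity
    · obtain ⟨F, hF, cF, -, -, hu⟩ := taurigid_facts B (V n) (hV n) (g n) (hg n)
      obtain ⟨h1, h2, h3⟩ := hC (V n) (g n) (hV n) (hg n)
      change (pl B).u (fun j => (g n j : ℝ)) / ‖X n‖ ^ 2 ≤ _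
      rw [hu]
      change (dd (V n) (V n) : ℝ) / ‖X n‖ ^ 2 ≤ C ^ 4 * ((dd (V n) (V n) : ℝ) / _)
      have h4 : (Module.finrank k (V n).X : ℝ) ≤ C ^ 2 * ‖X n‖ := by
        refine h1.trans ?_
        rw [pow_two, mul_assoc]
        exact mul_le_mul_of_nonneg_left h2 hC0.le
      have h5 : (Module.finrank k (V n).X : ℝ) ^ 2 ≤ C ^ 4 * ‖X n‖ ^ 2 := by
        have := pow_le_pow_left₀ (hfr n).le h4 2
        calc _ ≤ _ := this
          _ = _ := by ring
      rw [← mul_div_assoc, div_le_div_iff₀ (pow_pos (hX0 n) 2) (pow_pos (hfr n) 2)]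
      have h6 : (0 : ℝ) ≤ (dd (V n) (V n) : ℝ) := Nat.cast_nonneg _
      nlinarith [mul_le_mul_of_nonneg_left h5 h6]
  obtain ⟨h0, h1⟩ := (pl B).growth_seq X hX0 π hπ (1 / (C * C)) (by positivity) (fun n => by
    obtain ⟨h1, h2, h3⟩ := hC (V n) (g n) (hV n) (hg n)
    have h4 : ‖X n‖ ≤ C * (C * ∑ i, (pl B).mu i (X n)) :=
      h3.trans (mul_le_mul_of_nonneg_left h1 hC0.le)
    rw [div_mul_eq_mul_div, one_mul, div_le_iff₀ (by positivity)]
    calc _ ≤ _ := h4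
      _ = _ := by ring) hu
  obtain ⟨ε', hε', hrel⟩ := exists_rel π
  by_contra hcon
  push Not at hcon
  have h2 := (pl B).pos π (min ε ε') (lt_min hε hε') (fun N x hN hx hi => by
    refine one_le_u B x ?_ hi
    refine hcon N x hN (fun i => (hx i).trans_le (min_le_left _ _)) fun r hr => ?_
    exact hrel N x (fun i => (hx i).trans_le (min_le_right _ _)) r hr) h1
  linarith

/-- the global form -/
theorem global_form [Module.Finite k A] (B : ProjBasis k A ι)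
    (h : ∀ c : ℝ, 0 < c → ∃ V : FM k A, IsTauRigid V ∧
      (Module.finrank k (V.X →ₗ[A] V.X) : ℝ) < c * (Module.finrank k V.X : ℝ) ^ 2) :
    ∃ v : ι → ℚ, v ≠ 0 ∧ (fun i => (v i : ℝ)) ∉ B.gFan := by
  classical
  choose V hV hlt using fun n : ℕ => h (1 / ((n : ℝ) + 1)) (by positivity)
  choose g hg using fun n => B.exists_gvec (V n)
  have hfr : ∀ n, 0 < (Module.finrank k (V n).X : ℝ) := by
    intro n
    have h1 : (0 : ℝ) ≤ (Module.finrank k ((V n).X →ₗ[A] (V n).X) : ℝ) := Nat.cast_nonneg _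
    have h2 := hlt n
    by_contra h0
    have h3 : (Module.finrank k (V n).X : ℝ) = 0 :=
      le_antisymm (not_lt.mp h0) (Nat.cast_nonneg _)
    rw [h3] at h2
    simp only [ne_eq, OfNat.ofNat_ne_zero, not_false_eq_true, zero_pow, mul_zero] at h2
    linarith
  have hne : ∀ n, Nontrivial (V n).X := fun n =>
    Module.finrank_pos_iff (R := k) (M := (V n).X) |>.mp (by exact_mod_cast hfr n)
  obtain ⟨C, hC1, hC⟩ := exists_compare B
  let X : ℕ → ι → ℝ := fun n i => (g n i : ℝ)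
  have hX0 : ∀ n, 0 < ‖X n‖ := by
    intro n
    obtain ⟨h1, h2, -⟩ := hC (V n) (g n) (hV n) (hg n)
    have h3 := hfr n
    by_contra h0
    have h4 : ‖X n‖ = 0 := le_antisymm (not_lt.mp h0) (norm_nonneg _)
    change _ ≤ C * ‖X n‖ at h2
    rw [h4, mul_zero] at h2
    nlinarith
  have hy : ∀ n, (‖X n‖)⁻¹ • X n ∈ Metric.sphere (0 : ι → ℝ) 1 := by
    intro n
    rw [mem_sphere_zero_iff_norm, norm_smul, norm_inv, norm_norm, inv_mul_cancel₀ (hX0 n).ne']
  obtain ⟨π, hπ, φ, hφ, hlim⟩ := (isCompact_sphere (0 : ι → ℝ) 1).tendsto_subseq hy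
  have hE : Tendsto (fun j => (Module.finrank k ((V (φ j)).X →ₗ[A] (V (φ j)).X) : ℝ) /
      (Module.finrank k (V (φ j)).X : ℝ) ^ 2) atTop (𝓝 0) := by
    have e2 : Tendsto (fun n : ℕ => 1 / (((φ n : ℕ) : ℝ) + 1)) atTop (𝓝 0) :=
      tendsto_one_div_add_atTop_nhds_zero_nat.comp hφ.tendsto_atTop
    refine squeeze_zero (fun n => by positivity) (fun n => ?_) e2
    rw [div_le_iff₀ (pow_pos (hfr _) 2)]
    exact (hlt (φ n)).le
  obtain ⟨N, z, hN, hz, -, hmem⟩ := local_form B (fun j => V (φ j)) (fun j => g (φ j))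
    (fun j => hV _) (fun j => hne _) (fun j => hg _) π hlim hE (1 / 2) (by norm_num)
  refine ⟨fun i => (z i : ℚ), ?_, ?_⟩
  · intro h0
    have hz0 : ∀ i, (z i : ℝ) = 0 := by
      intro i
      have := congrFun h0 i
      simp only [Pi.zero_apply] at this
      have h1 : z i = 0 := by exact_mod_cast this
      rw [h1]
      simp
    rw [mem_sphere_zero_iff_norm] at hπ
    have h1 : ‖π‖ ≤ 1 / 2 := by
      rw [pi_norm_le_iff_of_nonneg (by norm_num)]
      intro i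
      have h2 := hz i
      rw [hz0 i, zero_sub, abs_neg, abs_mul, Nat.abs_cast] at h2
      have h3 : (1 : ℝ) ≤ N := by exact_mod_cast hN
      rw [Real.norm_eq_abs]
      nlinarith [abs_nonneg (π i)]
    rw [hπ] at h1
    norm_num at h1
  · have h1 : (fun i => (((z i : ℚ)) : ℝ)) = fun i => (z i : ℝ) := by
      funext i
      push_cast
      rfl
    rw [h1]
    exact hmem

/-- finiteness of the indecomposable `τ`-rigid modules with bounded endomorphism dimension -/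
theorem finite_form [Module.Finite k A] (B : ProjBasis k A ι) (K : ℕ)
    (h : ¬ ∃ (n : ℕ) (W : Fin n → FM k A), ∀ V : FM k A, Indec A V.X → IsTauRigid V →
      Module.finrank k (V.X →ₗ[A] V.X) ≤ K → ∃ i, Nonempty (V.X ≃ₗ[A] (W i).X)) :
    ∃ v : ι → ℚ, v ≠ 0 ∧ (fun i => (v i : ℝ)) ∉ B.gFan := by
  classical
  by_contra hcon
  apply h
  -- quadratic growth
  obtain ⟨c, hc, hgr⟩ : ∃ c : ℝ, 0 < c ∧ ∀ V : FM k A, IsTauRigid V →
      c * (Module.finrank k V.X : ℝ) ^ 2 ≤ (Module.finrank k (V.X →ₗ[A] V.X) : ℝ) := by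
    by_contra h1
    push Not at h1
    exact hcon (global_form B h1)
  obtain ⟨m, hm⟩ := exists_nat_ge ((K : ℝ) / c)
  let a := Module.finrank k A + Module.finrank k A ^ 2
  let G := {g : ι → ℤ // g ∈ Finset.Icc (fun _ => -((m * a : ℕ) : ℤ)) (fun _ => ((m * a : ℕ) : ℤ))}
  let _ : Fintype G := FinsetCoe.fintype _
  let P : (ι → ℤ) → Obj k A → Prop := fun g F =>
    (∃ F' : Obj k A, Rigid F' ∧ B.Cls F' g) → Rigid F ∧ B.Cls F g
  have hex : ∀ g, ∃ F, P g F := by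
    intro g
    by_cases hg : ∃ F' : Obj k A, Rigid F' ∧ B.Cls F' g
    · obtain ⟨F', hF'⟩ := hg
      exact ⟨F', fun _ => hF'⟩
    · exact ⟨Obj.shift (FM.zero k A) inferInstance, fun h => absurd h hg⟩
  choose F hF using hex
  choose J fJ W hW eW using fun g : ι → ℤ => exists_decomp (F g).M
  let T := Σ g : G, J g.1
  let _ : Fintype T := Sigma.instFintype
  let e : T ≃ Fin (Fintype.card T) := Fintype.equivFin T
  refine ⟨Fintype.card T, fun i => W (e.symm i).1.1 (e.symm i).2, fun V hV hVr hK => ?_⟩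
  obtain ⟨g, hg⟩ := B.exists_gvec V
  obtain ⟨H, hH, cH, ⟨eH⟩, -, -⟩ := taurigid_facts B V hVr g hg
  obtain ⟨rF, cF⟩ := hF g ⟨H, hH, cH⟩
  -- the bound
  have hdim : Module.finrank k V.X ≤ m := by
    have h1 := hgr V hVr
    have h2 : (Module.finrank k (V.X →ₗ[A] V.X) : ℝ) ≤ K := by exact_mod_cast hK
    have := hV.1
    have h3 : (1 : ℝ) ≤ Module.finrank k V.X := by
      exact_mod_cast (Module.finrank_pos (R := k) (M := V.X))
    have h4 : c * (Module.finrank k V.X : ℝ) ≤ K := by nlinarith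
    have h5 : (Module.finrank k V.X : ℝ) ≤ (K : ℝ) / c := by
      rw [le_div_iff₀ hc]
      linarith
    exact_mod_cast h5.trans hm
  have hgb : ∀ i, |g i| ≤ ((m * a : ℕ) : ℤ) := by
    intro i
    refine (gvec_bound B V g hg i).trans ?_
    have h1 : Module.finrank k V.X * (Module.finrank k A + Module.finrank k A ^ 2) ≤ m * a :=
      Nat.mul_le_mul_right _ hdim
    exact_mod_cast h1
  let g' : G := ⟨g, Finset.mem_Icc.mpr ⟨fun i => (abs_le.mp (hgb i)).1,
    fun i => (abs_le.mp (hgb i)).2⟩⟩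
  obtain ⟨r, hr⟩ := retract_of_same H (F g) hH rF fun X => (cH X).trans (cF X).symm
  obtain ⟨i₁, r₁, h₁⟩ := (Retract.of_equiv eH.symm).trans hr
  obtain ⟨-, hr'⟩ := Retract.of_pi k hV i₁ r₁ h₁
  obtain ⟨eg⟩ := eW g
  obtain ⟨j, hj⟩ := iso_of_retract_pi (hW g) hV (hr'.trans (Retract.of_equiv eg))
  refine ⟨e ⟨g', j⟩, ?_⟩
  change Nonempty (V.X ≃ₗ[A] (W (e.symm (e ⟨g', j⟩)).1.1 (e.symm (e ⟨g', j⟩)).2).X)
  rw [Equiv.symm_apply_apply]
  exact hj

end Pool.Agent.Helper389_End
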